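import Pool.Agent.H21.CQ.Perf

/-!
# Compact double quotients contract (MP_4fe60b_al)
-/

set_option autoImplicit false

open Matrix Module

namespace Pool.Agent.H21.CQ

private lemma sumExtend_inl {n k : ℕ} {v : Fin k → (Fin n → ℝ)} (hv : LinearIndependent ℝ v)
    (j : Fin k) : Basis.sumExtend hv (Sum.inl j) = v j := by
  simp only [Basis.sumExtend, Basis.reindex_apply, Basis.extend_apply_self, Equiv.symm_symm]
  rfl

/-- `SL(n, ℝ)` is transitive on `k`-frames for `k < n`. -/
theorem exists_frame {n k : ℕ} (hk : k < n) (v w : Fin k → (Fin n → ℝ))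
    (hv : LinearIndependent ℝ v) (hw : LinearIndependent ℝ w) :
    ∃ g : SpecialLinearGroup (Fin n) ℝ,
      ∀ j, (g : Matrix (Fin n) (Fin n) ℝ) *ᵥ v j = w j := by
  classical
  haveI : Finite (Fin k ⊕ Basis.sumExtendIndex hv) := Module.Finite.finite_basis (Basis.sumExtend hv)
  haveI : Finite (Fin k ⊕ Basis.sumExtendIndex hw) := Module.Finite.finite_basis (Basis.sumExtend hw)
  haveI : Finite (Basis.sumExtendIndex hv) := Finite.of_injective
    (Sum.inr : _ → Fin k ⊕ Basis.sumExtendIndex hv) Sum.inr_injective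
  haveI : Finite (Basis.sumExtendIndex hw) := Finite.of_injective
    (Sum.inr : _ → Fin k ⊕ Basis.sumExtendIndex hw) Sum.inr_injective
  haveI := Fintype.ofFinite (Basis.sumExtendIndex hv)
  haveI := Fintype.ofFinite (Basis.sumExtendIndex hw)
  have cv : k + Fintype.card (Basis.sumExtendIndex hv) = n := by
    have h := Module.finrank_eq_card_basis (Basis.sumExtend hv)
    rw [Module.finrank_fin_fun, Fintype.card_sum, Fintype.card_fin] at h
    exact h.symm
  have cw : k + Fintype.card (Basis.sumExtendIndex hw) = n := by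
    have h := Module.finrank_eq_card_basis (Basis.sumExtend hw)
    rw [Module.finrank_fin_fun, Fintype.card_sum, Fintype.card_fin] at h
    exact h.symm
  have hcard : Fintype.card (Basis.sumExtendIndex hv) = Fintype.card (Basis.sumExtendIndex hw) := by
    omega
  let e := Fintype.equivOfCardEq hcard
  have hne : Nonempty (Basis.sumExtendIndex hv) := by
    rw [← Fintype.card_pos_iff]
    omega
  obtain ⟨i₀⟩ := hne
  set bv := Basis.sumExtend hv with hbv
  set bw := (Basis.sumExtend hw).reindex ((Equiv.refl (Fin k)).sumCongr e.symm) with hbw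
  have hvj : ∀ j, bv (Sum.inl j) = v j := fun j => sumExtend_inl hv j
  have hwj : ∀ j, bw (Sum.inl j) = w j := by
    intro j
    rw [hbw, Basis.reindex_apply]
    exact sumExtend_inl hw j
  have hd : bv.det bw ≠ 0 := (bv.isUnit_det bw).ne_zero
  set u : Fin k ⊕ Basis.sumExtendIndex hv → (Fin n → ℝ) :=
    Function.update bw (Sum.inr i₀) ((bv.det bw)⁻¹ • bw (Sum.inr i₀)) with hu
  set φ : (Fin n → ℝ) →ₗ[ℝ] (Fin n → ℝ) := bv.constr ℝ u with hφ
  have hφb : φ ∘ bv = u := by
    ext1 i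
    simp [hφ]
  have hdet : LinearMap.det φ = 1 := by
    have h1 := bv.det_comp φ bv
    rw [hφb, bv.det_self, mul_one, hu] at h1
    rw [← h1, AlternatingMap.map_update_smul, Function.update_eq_self, smul_eq_mul,
      inv_mul_cancel₀ hd]
  refine ⟨sl (LinearMap.toMatrix' φ) (by rw [LinearMap.det_toMatrix']; exact hdet), fun j => ?_⟩
  rw [sl_val, LinearMap.toMatrix'_mulVec, ← hvj j]
  have h2 := congrFun hφb (Sum.inl j)
  rw [Function.comp_apply] at h2
  rw [h2, hu, Function.update_of_ne (by simp), hwj]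

/-- The topological part: if the double quotient is compact, one bound serves all `g`. -/
theorem exists_bound {n k : ℕ} (Γ H : Subgroup (SpecialLinearGroup (Fin n) ℝ))
    (hc : CompactSpace (MulAction.orbitRel.Quotient Γ (SpecialLinearGroup (Fin n) ℝ ⧸ H)))
    (A : Fin k → (Fin n → ℝ)) :
    ∃ M : ℝ, ∀ g : SpecialLinearGroup (Fin n) ℝ, ∃ γ ∈ Γ, ∃ h ∈ H, ∀ (j : Fin k) (i : Fin n),
      |(((γ * g * h : SpecialLinearGroup (Fin n) ℝ) : Matrix (Fin n) (Fin n) ℝ) *ᵥ A j) i| < M := by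
  classical
  set G := SpecialLinearGroup (Fin n) ℝ with hG
  set Q := MulAction.orbitRel.Quotient Γ (G ⧸ H) with hQ
  set π : G → Q := fun g => Quotient.mk _ ((g : G) : G ⧸ H) with hπ
  have hπq : Topology.IsQuotientMap π := by
    have h1 : Topology.IsQuotientMap (fun g : G => (g : G ⧸ H)) := isQuotientMap_quot_mk
    have h2 : Topology.IsQuotientMap (fun x : G ⧸ H => (Quotient.mk _ x : Q)) :=
      isQuotientMap_quot_mk
    exact h2.comp h1
  have hsat : ∀ g g' : G, π g = π g' → ∃ γ ∈ Γ, ∃ h ∈ H, g = γ * g' * h := by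
    intro g g' hgg
    have h1 := Quotient.exact hgg
    obtain ⟨γ, hγ⟩ := h1
    have h2 : (((γ : G) * g' : G) : G ⧸ H) = (g : G ⧸ H) := hγ
    rw [QuotientGroup.eq] at h2
    refine ⟨γ, γ.2, ((γ : G) * g')⁻¹ * g, h2, ?_⟩
    group
  set U : ℕ → Set G := fun M => {g | ∃ γ ∈ Γ, ∃ h ∈ H, ∀ (j : Fin k) (i : Fin n),
      |(((γ * g * h : G) : Matrix (Fin n) (Fin n) ℝ) *ᵥ A j) i| < M} with hU
  have hUopen : ∀ M, IsOpen (U M) := by
    intro M
    have h1 : U M = ⋃ γ ∈ Γ, ⋃ h ∈ H, ⋂ j : Fin k, ⋂ i : Fin n,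
        {g : G | |(((γ * g * h : G) : Matrix (Fin n) (Fin n) ℝ) *ᵥ A j) i| < M} := by
      ext g
      simp [hU]
    rw [h1]
    refine isOpen_biUnion fun γ _ => isOpen_biUnion fun h _ => isOpen_iInter_of_finite fun j =>
      isOpen_iInter_of_finite fun i => ?_
    have hcont : Continuous (fun g : G => (((γ * g * h : G) : Matrix (Fin n) (Fin n) ℝ) *ᵥ A j) i) := by
      have h2 : Continuous (fun g : G => ((γ * g * h : G) : Matrix (Fin n) (Fin n) ℝ)) :=
        continuous_subtype_val.comp (by fun_prop)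
      exact (continuous_apply i).comp (h2.matrix_mulVec continuous_const)
    exact isOpen_lt hcont.abs continuous_const
  have hUmono : ∀ M M', M ≤ M' → U M ⊆ U M' := by
    rintro M M' hM g ⟨γ, hγ, h, hh, hb⟩
    exact ⟨γ, hγ, h, hh, fun j i => (hb j i).trans_le (by exact_mod_cast hM)⟩
  have hUsat : ∀ M (g g' : G), π g = π g' → g' ∈ U M → g ∈ U M := by
    rintro M g g' hgg ⟨γ, hγ, h, hh, hb⟩
    obtain ⟨γ', hγ', h', hh', he⟩ := hsat g g' hgg
    refine ⟨γ * γ'⁻¹, Γ.mul_mem hγ (Γ.inv_mem hγ'), h'⁻¹ * h, H.mul_mem (H.inv_mem hh') hh, ?_⟩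
    have h3 : γ * γ'⁻¹ * g * (h'⁻¹ * h) = γ * g' * h := by
      rw [he]; group
    rw [h3]
    exact hb
  have hOopen : ∀ M, IsOpen (π '' U M) := by
    intro M
    rw [← hπq.isOpen_preimage]
    have h1 : π ⁻¹' (π '' U M) = U M := by
      ext g
      constructor
      · rintro ⟨g', hg', he⟩
        exact hUsat M g g' he.symm hg'
      · intro hg
        exact ⟨g, hg, rfl⟩
    rw [h1]
    exact hUopen M
  have hcov : (Set.univ : Set Q) ⊆ ⋃ M, π '' U M := by
    rintro q -
    obtain ⟨g, rfl⟩ := hπq.surjective q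
    obtain ⟨M, hM⟩ := exists_nat_gt (∑ j : Fin k, ∑ i : Fin n,
      |((g : Matrix (Fin n) (Fin n) ℝ) *ᵥ A j) i|)
    refine Set.mem_iUnion.2 ⟨M, g, ⟨1, Γ.one_mem, 1, H.one_mem, fun j i => ?_⟩, rfl⟩
    rw [one_mul, mul_one]
    refine lt_of_le_of_lt ?_ hM
    refine (Finset.single_le_sum (f := fun i => |((g : Matrix (Fin n) (Fin n) ℝ) *ᵥ A j) i|)
      (fun i _ => abs_nonneg _) (Finset.mem_univ i)).trans ?_
    exact Finset.single_le_sum (f := fun j => ∑ i : Fin n,
      |((g : Matrix (Fin n) (Fin n) ℝ) *ᵥ A j) i|)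
      (fun j _ => Finset.sum_nonneg fun i _ => abs_nonneg _) (Finset.mem_univ j)
  have hdir : Directed (· ⊆ ·) (fun M => π '' U M) := by
    intro M M'
    exact ⟨max M M', Set.image_mono (hUmono _ _ (le_max_left _ _)),
      Set.image_mono (hUmono _ _ (le_max_right _ _))⟩
  obtain ⟨M, hM⟩ := isCompact_univ.elim_directed_cover _ hOopen hcov hdir
  refine ⟨M, fun g => ?_⟩
  obtain ⟨g', hg', he⟩ := hM (Set.mem_univ (π g))
  exact hUsat M g g' he.symm hg'

end Pool.Agent.H21.CQ
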