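import Pool.Agent.H21.CQ.Core

/-!
# Contraction of all `k`-dimensional subspaces (MP_4fe60b_al)
-/

set_option autoImplicit false

open Matrix Module

namespace Pool.Agent.H21.CQ

variable {m n k : ℕ}

/-- the action of `ψ x` on an invariant subspace -/
noncomputable def rep (ψ : SpecialLinearGroup (Fin m) ℝ →* SpecialLinearGroup (Fin n) ℝ)
    (W : Submodule ℝ (Fin n → ℝ))
    (hW : ∀ x, ∀ w ∈ W, (ψ x : Matrix (Fin n) (Fin n) ℝ) *ᵥ w ∈ W)
    (x : SpecialLinearGroup (Fin m) ℝ) : W →ₗ[ℝ] W :=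
  ((ψ x : Matrix (Fin n) (Fin n) ℝ).mulVecLin).restrict (hW x)

lemma rep_apply (ψ : SpecialLinearGroup (Fin m) ℝ →* SpecialLinearGroup (Fin n) ℝ)
    (W : Submodule ℝ (Fin n → ℝ))
    (hW : ∀ x, ∀ w ∈ W, (ψ x : Matrix (Fin n) (Fin n) ℝ) *ᵥ w ∈ W)
    (x : SpecialLinearGroup (Fin m) ℝ) (w : W) :
    ((rep ψ W hW x w : W) : Fin n → ℝ) = (ψ x : Matrix (Fin n) (Fin n) ℝ) *ᵥ (w : Fin n → ℝ) :=
  rfl

/-- a representation of `SL(m, ℝ)` preserves volumes -/
lemma abs_det_rep (ψ : SpecialLinearGroup (Fin m) ℝ →* SpecialLinearGroup (Fin n) ℝ)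
    (W : Submodule ℝ (Fin n → ℝ))
    (hW : ∀ x, ∀ w ∈ W, (ψ x : Matrix (Fin n) (Fin n) ℝ) *ᵥ w ∈ W)
    (x : SpecialLinearGroup (Fin m) ℝ) : |LinearMap.det (rep ψ W hW x)| = 1 := by
  have h1 : rep ψ W hW 1 = LinearMap.id := by
    ext1 w
    apply Subtype.ext
    rw [rep_apply, map_one, Matrix.SpecialLinearGroup.coe_one, one_mulVec]
    rfl
  have hmul : ∀ x y, rep ψ W hW (x * y) = rep ψ W hW x ∘ₗ rep ψ W hW y := by
    intro x y
    ext1 w
    apply Subtype.ext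
    rw [rep_apply, map_mul, Matrix.SpecialLinearGroup.coe_mul, ← mulVec_mulVec]
    rfl
  let χ : SpecialLinearGroup (Fin m) ℝ →* ℝ :=
    { toFun := fun x => |LinearMap.det (rep ψ W hW x)|
      map_one' := by rw [h1, LinearMap.det_id, abs_one]
      map_mul' := fun x y => by rw [hmul, LinearMap.det_comp, abs_mul] }
  have hχ : ∀ x, 0 < χ x := by
    intro x
    have h2 : χ x * χ x⁻¹ = 1 := by rw [← map_mul, mul_inv_cancel, map_one]
    have h3 : χ x ≠ 0 := left_ne_zero_of_mul (h2.trans_ne one_ne_zero)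
    exact lt_of_le_of_ne (abs_nonneg _) h3.symm
  exact chi_eq_one χ hχ x

/-- the contraction of frames -/
theorem contract (hk : 0 < k) (hkn : k < n)
    (ψ : SpecialLinearGroup (Fin m) ℝ →* SpecialLinearGroup (Fin n) ℝ)
    (W : Submodule ℝ (Fin n → ℝ)) (b : Basis (Fin k) ℝ W)
    (hW : ∀ x, ∀ w ∈ W, (ψ x : Matrix (Fin n) (Fin n) ℝ) *ᵥ w ∈ W)
    (Γ : Subgroup (SpecialLinearGroup (Fin n) ℝ))
    (hc : CompactSpace (MulAction.orbitRel.Quotient Γ
      (SpecialLinearGroup (Fin n) ℝ ⧸ ψ.range)))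
    (v : Fin k → (Fin n → ℝ)) (hv : LinearIndependent ℝ v) (ε : ℝ) (hε : 0 < ε) :
    ∃ γ ∈ Γ, ∃ x, ∀ (j : Fin k) (i : Fin n),
      |((γ : Matrix (Fin n) (Fin n) ℝ) *ᵥ
        (∑ l, LinearMap.toMatrix b b (rep ψ W hW x) l j • v l)) i| < ε := by
  classical
  set A : Fin k → (Fin n → ℝ) := fun j => (b j : Fin n → ℝ) with hA
  have hAli : LinearIndependent ℝ A := by
    have h := b.linearIndependent.map' W.subtype (Submodule.ker_subtype W)
    exact h
  obtain ⟨M, hM⟩ := exists_bound Γ ψ.range hc A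
  have hMpos : 0 < M := by
    obtain ⟨γ, _, h, _, hb⟩ := hM 1
    exact (abs_nonneg _).trans_lt (hb ⟨0, hk⟩ ⟨0, hk.trans hkn⟩)
  set t : ℝ := M / ε with ht
  have htpos : 0 < t := div_pos hMpos hε
  have htv : LinearIndependent ℝ (fun j => t • v j) := by
    have h := hv.units_smul (fun _ => Units.mk0 t htpos.ne')
    exact h
  obtain ⟨g, hg⟩ := exists_frame hkn A (fun j => t • v j) hAli htv
  obtain ⟨γ, hγ, h, ⟨x, rfl⟩, hb⟩ := hM g
  refine ⟨γ, hγ, x, fun j i => ?_⟩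
  have h1 : (ψ x : Matrix (Fin n) (Fin n) ℝ) *ᵥ A j =
      ∑ l, LinearMap.toMatrix b b (rep ψ W hW x) l j • A l := by
    have h2 := (b.sum_repr (rep ψ W hW x (b j))).symm
    have h3 := congrArg (fun w : W => (w : Fin n → ℝ)) h2
    simp only [rep_apply] at h3
    rw [hA]
    simp only
    rw [h3, AddSubmonoidClass.coe_finset_sum]
    refine Finset.sum_congr rfl fun l _ => ?_
    rw [LinearMap.toMatrix_apply]
    rfl
  have h2 : ((γ * g * ψ x : SpecialLinearGroup (Fin n) ℝ) : Matrix (Fin n) (Fin n) ℝ) *ᵥ A j =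
      t • ((γ : Matrix (Fin n) (Fin n) ℝ) *ᵥ
        (∑ l, LinearMap.toMatrix b b (rep ψ W hW x) l j • v l)) := by
    rw [Matrix.SpecialLinearGroup.coe_mul, Matrix.SpecialLinearGroup.coe_mul, ← mulVec_mulVec, h1,
      ← mulVec_mulVec, mulVec_sum, ← mulVec_smul]
    congr 1
    rw [Finset.smul_sum]
    refine Finset.sum_congr rfl fun l _ => ?_
    rw [mulVec_smul, hg l, smul_comm]
  have h3 := hb j i
  rw [h2, Pi.smul_apply, smul_eq_mul, abs_mul, abs_of_pos htpos] at h3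
  rw [ht, div_mul_eq_mul_div, div_lt_iff₀ hε] at h3
  exact lt_of_mul_lt_mul_left h3 hMpos.le

/-- Gram determinants of invariant type are contracted -/
theorem gram_small (hk : 0 < k) (hkn : k < n)
    (ψ : SpecialLinearGroup (Fin m) ℝ →* SpecialLinearGroup (Fin n) ℝ)
    (W : Submodule ℝ (Fin n → ℝ)) (hWk : finrank ℝ W = k)
    (hW : ∀ x, ∀ w ∈ W, (ψ x : Matrix (Fin n) (Fin n) ℝ) *ᵥ w ∈ W)
    (Γ : Subgroup (SpecialLinearGroup (Fin n) ℝ))
    (hc : CompactSpace (MulAction.orbitRel.Quotient Γ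
      (SpecialLinearGroup (Fin n) ℝ ⧸ ψ.range)))
    (S : Matrix (Fin n) (Fin n) ℝ)
    (V : Matrix (Fin n) (Fin k) ℝ) (hV : LinearIndependent ℝ Vᵀ) (ε : ℝ) (hε : 0 < ε) :
    ∃ γ ∈ Γ, |(((γ : Matrix (Fin n) (Fin n) ℝ) * V)ᵀ * S *
      ((γ : Matrix (Fin n) (Fin n) ℝ) * V)).det| < ε := by
  classical
  set C : ℝ := ∑ p, ∑ q, |S p q| with hC
  have hC0 : 0 ≤ C := Finset.sum_nonneg fun p _ => Finset.sum_nonneg fun q _ => abs_nonneg _
  obtain ⟨e, he0, he⟩ : ∃ e : ℝ, 0 < e ∧ (k.factorial : ℝ) * (e ^ 2 * C) ^ k < ε := by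
    have hcont : Continuous (fun e : ℝ => (k.factorial : ℝ) * (e ^ 2 * C) ^ k) := by fun_prop
    have h0 : (fun e : ℝ => (k.factorial : ℝ) * (e ^ 2 * C) ^ k) 0 < ε := by
      simp [hk.ne', hε]
    have h1 : ∀ᶠ e in nhds (0 : ℝ), (k.factorial : ℝ) * (e ^ 2 * C) ^ k < ε :=
      hcont.continuousAt.eventually_lt continuousAt_const h0
    obtain ⟨δ, hδ, hδ'⟩ := Metric.eventually_nhds_iff.1 h1
    refine ⟨δ / 2, by positivity, hδ' ?_⟩
    rw [dist_zero_right, Real.norm_eq_abs, abs_of_pos (by positivity)]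
    linarith
  set b : Basis (Fin k) ℝ W := finBasisOfFinrankEq ℝ W hWk
  obtain ⟨γ, hγ, x, hx⟩ := contract hk hkn ψ W b hW Γ hc Vᵀ hV e he0
  refine ⟨γ, hγ, ?_⟩
  set R : Matrix (Fin k) (Fin k) ℝ := LinearMap.toMatrix b b (rep ψ W hW x) with hR
  have hRdet : R.det ^ 2 = 1 := by
    have h1 : |R.det| = 1 := by
      rw [hR, LinearMap.det_toMatrix]
      exact abs_det_rep ψ W hW x
    rw [← sq_abs, h1, one_pow]
  set Y : Matrix (Fin n) (Fin k) ℝ := (γ : Matrix (Fin n) (Fin n) ℝ) * V * R with hY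
  have hYe : ∀ i j, |Y i j| < e := by
    intro i j
    have h1 := hx j i
    have h2 : Y i j = ((γ : Matrix (Fin n) (Fin n) ℝ) *ᵥ (∑ l, R l j • Vᵀ l)) i := by
      rw [hY, Matrix.mul_assoc, Matrix.mul_apply, mulVec, dotProduct]
      refine Finset.sum_congr rfl fun p _ => ?_
      congr 1
      rw [Matrix.mul_apply, Finset.sum_apply]
      refine Finset.sum_congr rfl fun l _ => ?_
      rw [Pi.smul_apply, smul_eq_mul, transpose_apply, mul_comm]
    rw [h2]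
    exact h1
  have hG : (Yᵀ * S * Y).det = (((γ : Matrix (Fin n) (Fin n) ℝ) * V)ᵀ * S *
      ((γ : Matrix (Fin n) (Fin n) ℝ) * V)).det := by
    have h1 : Yᵀ * S * Y = Rᵀ * (((γ : Matrix (Fin n) (Fin n) ℝ) * V)ᵀ * S *
      ((γ : Matrix (Fin n) (Fin n) ℝ) * V)) * R := by
      rw [hY, transpose_mul]
      simp only [Matrix.mul_assoc]
    rw [h1, det_mul, det_mul, det_transpose]
    calc _ = R.det ^ 2 * (((γ : Matrix (Fin n) (Fin n) ℝ) * V)ᵀ * S *
      ((γ : Matrix (Fin n) (Fin n) ℝ) * V)).det := by ring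
      _ = _ := by rw [hRdet, one_mul]
  rw [← hG]
  refine lt_of_le_of_lt ?_ he
  have hent : ∀ i j, |(Yᵀ * S * Y) i j| ≤ e ^ 2 * C := by
    intro i j
    rw [Matrix.mul_apply]
    refine (Finset.abs_sum_le_sum_abs _ _).trans ?_
    have h1 : ∀ q, |(Yᵀ * S) i q * Y q j| ≤ ∑ p, e ^ 2 * |S p q| := by
      intro q
      rw [Matrix.mul_apply, Finset.sum_mul]
      refine (Finset.abs_sum_le_sum_abs _ _).trans ?_
      refine Finset.sum_le_sum fun p _ => ?_
      rw [abs_mul, abs_mul, transpose_apply]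
      calc |Y p i| * |S p q| * |Y q j| ≤ e * |S p q| * e := by
            gcongr
            · exact (hYe p i).le
            · exact (hYe q j).le
        _ = e ^ 2 * |S p q| := by ring
    refine (Finset.sum_le_sum fun q _ => h1 q).trans ?_
    rw [Finset.sum_comm, hC, Finset.mul_sum]
    refine Finset.sum_le_sum fun p _ => ?_
    rw [Finset.mul_sum]
  have h1 := Matrix.det_le (A := Yᵀ * S * Y) (abv := AbsoluteValue.abs) (x := e ^ 2 * C) hent
  rw [Fintype.card_fin, nsmul_eq_mul] at h1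
  exact h1

/-- a Gram determinant of independent vectors does not vanish -/
theorem gram_ne_zero (V : Matrix (Fin n) (Fin k) ℝ) (hV : LinearIndependent ℝ Vᵀ) :
    (Vᵀ * V).det ≠ 0 := by
  intro h
  obtain ⟨x, hx0, hx⟩ := exists_mulVec_eq_zero_iff.2 h
  have h1 : (V *ᵥ x) ⬝ᵥ (V *ᵥ x) = 0 := by
    rw [dotProduct_mulVec, ← mulVec_transpose, mulVec_mulVec, hx, zero_dotProduct]
  have h2 : V *ᵥ x = 0 := dotProduct_self_eq_zero.1 h1
  have h3 : ∑ j, x j • Vᵀ j = 0 := by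
    rw [← h2]
    ext i
    rw [Finset.sum_apply, mulVec, dotProduct]
    refine Finset.sum_congr rfl fun j _ => ?_
    rw [Pi.smul_apply, smul_eq_mul, transpose_apply, mul_comm]
  exact hx0 (funext (Fintype.linearIndependent_iff.1 hV x h3))

end Pool.Agent.H21.CQ
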