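import Pool.Agent.H21.CQ.Fin

/-!
# The contraction theorem with all its consequences (MP_4fe60b_al)
-/

set_option autoImplicit false

open Matrix Module

namespace Pool.Agent.H21.CQ

/-- The group `SL(n, ℝ)` with its topology as a set of matrices. -/
abbrev SL (n : ℕ) : Type := Matrix.SpecialLinearGroup (Fin n) ℝ

/-- The `k`-dimensional volume of the parallelepiped spanned by `v 0, ..., v (k-1)`: the square root
of the Gram determinant. -/
noncomputable def kvol {n k : ℕ} (v : Fin k → (Fin n → ℝ)) : ℝ :=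
  Real.sqrt (Matrix.det (Matrix.of fun i j => v i ⬝ᵥ v j))

theorem main (m n k : ℕ) (hk : 0 < k) (hkn : k < n)
    (ψ : SL m →* SL n)
    (W : Submodule ℝ (Fin n → ℝ)) (hWk : finrank ℝ W = k)
    (hW : ∀ x : SL m, ∀ w ∈ W, (ψ x : Matrix (Fin n) (Fin n) ℝ) *ᵥ w ∈ W)
    (Γ : Subgroup (SL n))
    (hc : CompactSpace (MulAction.orbitRel.Quotient Γ (SL n ⧸ ψ.range))) :
    -- every parallelepiped of dimension `k` is contracted
    (∀ v : Fin k → (Fin n → ℝ), ∀ ε : ℝ, 0 < ε →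
      ∃ γ ∈ Γ, kvol (fun i => (γ : Matrix (Fin n) (Fin n) ℝ) *ᵥ v i) < ε) ∧
    -- no lattice is preserved
    (∀ b : Basis (Fin n) ℝ (Fin n → ℝ), ¬ ∀ γ ∈ Γ, ∀ v ∈ Submodule.span ℤ (Set.range b),
      (γ : Matrix (Fin n) (Fin n) ℝ) *ᵥ v ∈ Submodule.span ℤ (Set.range b)) ∧
    -- no nondegenerate symmetric bilinear form is preserved
    (∀ S : Matrix (Fin n) (Fin n) ℝ, Sᵀ = S → S.det ≠ 0 →
      ¬ ∀ γ ∈ Γ, (γ : Matrix (Fin n) (Fin n) ℝ)ᵀ * S * (γ : Matrix (Fin n) (Fin n) ℝ) = S) ∧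
    -- invariant subspaces of dimension `k`
    (∀ v : Fin k → (Fin n → ℝ), LinearIndependent ℝ v → ¬ ∀ γ ∈ Γ,
      ∃ R : Matrix (Fin k) (Fin k) ℝ, |R.det| = 1 ∧
        ∀ j, (γ : Matrix (Fin n) (Fin n) ℝ) *ᵥ v j = ∑ i, R i j • v i) ∧
    -- if `ψ` fixes `W` pointwise, all vectors are contracted simultaneously
    ((∀ x : SL m, ∀ w ∈ W, (ψ x : Matrix (Fin n) (Fin n) ℝ) *ᵥ w = w) →
      (∀ v : Fin k → (Fin n → ℝ), LinearIndependent ℝ v → ∀ ε : ℝ, 0 < ε →
        ∃ γ ∈ Γ, ∀ j, ‖(γ : Matrix (Fin n) (Fin n) ℝ) *ᵥ v j‖ < ε) ∧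
      (∀ L : AddSubgroup (Fin k → (Fin n → ℝ)), DiscreteTopology L →
        (∃ v ∈ L, LinearIndependent ℝ v) →
        ¬ ∀ γ ∈ Γ, ∀ v ∈ L, (fun j => (γ : Matrix (Fin n) (Fin n) ℝ) *ᵥ v j) ∈ L)) := by
  classical
  -- Gram determinants as matrices
  have hgram : ∀ (g : Matrix (Fin n) (Fin n) ℝ) (v : Fin k → (Fin n → ℝ)),
      (Matrix.of fun i j => (g *ᵥ v i) ⬝ᵥ (g *ᵥ v j)) =
        (g * (Matrix.of v)ᵀ)ᵀ * (1 : Matrix (Fin n) (Fin n) ℝ) * (g * (Matrix.of v)ᵀ) := by
    intro g v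
    ext i j
    rw [Matrix.mul_one, Matrix.mul_apply]
    simp only [Matrix.of_apply, dotProduct]
    refine Finset.sum_congr rfl fun p _ => ?_
    rw [transpose_apply, Matrix.mul_apply, Matrix.mul_apply]
    rfl
  have hsmall := fun S V hV ε hε => gram_small hk hkn ψ W hWk hW Γ hc S V hV ε hε
  refine ⟨?_, ?_, ?_, ?_, ?_⟩
  · intro v ε hε
    by_cases hv : LinearIndependent ℝ v
    · obtain ⟨γ, hγ, h⟩ := hsmall 1 (Matrix.of v)ᵀ hv (ε ^ 2) (by positivity)
      refine ⟨γ, hγ, ?_⟩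
      rw [kvol, hgram, Real.sqrt_lt' hε]
      exact (le_abs_self _).trans_lt h
    · refine ⟨1, Γ.one_mem, ?_⟩
      have h0 : (Matrix.of fun i j => (((1 : SL n) : Matrix (Fin n) (Fin n) ℝ) *ᵥ v i) ⬝ᵥ
          (((1 : SL n) : Matrix (Fin n) (Fin n) ℝ) *ᵥ v j)).det = 0 := by
        rw [Fintype.not_linearIndependent_iff] at hv
        obtain ⟨c, hc0, i, hi⟩ := hv
        apply exists_mulVec_eq_zero_iff.1
        refine ⟨c, fun h => hi (by rw [h]; rfl), ?_⟩
        ext p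
        simp only [Matrix.SpecialLinearGroup.coe_one, one_mulVec, mulVec, Matrix.of_apply,
          Pi.zero_apply]
        have h1 : (fun j => v p ⬝ᵥ v j) ⬝ᵥ c = v p ⬝ᵥ (∑ j, c j • v j) := by
          rw [dotProduct_sum]
          simp only [dotProduct, Pi.smul_apply, smul_eq_mul, Finset.sum_mul, Finset.mul_sum]
          refine Finset.sum_congr rfl fun j _ => Finset.sum_congr rfl fun q _ => by ring
        rw [h1, hc0, dotProduct_zero]
      rw [kvol, h0, Real.sqrt_zero]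
      exact hε
  · intro b hb
    set P : Matrix (Fin n) (Fin n) ℝ := (Matrix.of b)ᵀ with hP
    have hPu : IsUnit P.det := by
      have h := (Pi.basisFun ℝ (Fin n)).isUnit_det b
      have h1 : (Pi.basisFun ℝ (Fin n)).det b = P.det := by
        rw [Basis.det_apply]
        congr 1
      rwa [h1] at h
    -- the embedding of the first `k` indices
    set ι : Fin k → Fin n := Fin.castLE hkn.le with hι
    have hιi : Function.Injective ι := Fin.castLE_injective hkn.le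
    set V : Matrix (Fin n) (Fin k) ℝ := (Matrix.of fun j => b (ι j))ᵀ with hV
    have hVli : LinearIndependent ℝ Vᵀ := b.linearIndependent.comp ι hιi
    obtain ⟨γ, hγ, h⟩ := hsmall ((P⁻¹)ᵀ * P⁻¹) V hVli 1 one_pos
    -- integral coordinates
    have hint : ∀ j, ∃ c : Fin n → ℤ, (γ : Matrix (Fin n) (Fin n) ℝ) *ᵥ b (ι j) =
        ∑ i, (c i : ℝ) • b i := by
      intro j
      have h1 := hb γ hγ (b (ι j)) (Submodule.subset_span ⟨ι j, rfl⟩)
      obtain ⟨c, hc⟩ := (Submodule.mem_span_range_iff_exists_fun ℤ).1 h1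
      refine ⟨c, ?_⟩
      rw [← hc]
      refine Finset.sum_congr rfl fun i _ => ?_
      exact (Int.cast_smul_eq_zsmul ℝ (c i) (b i)).symm
    choose c hc' using hint
    set N : Matrix (Fin n) (Fin k) ℤ := Matrix.of fun i j => c j i with hN
    have hγV : (γ : Matrix (Fin n) (Fin n) ℝ) * V = P * N.map (Int.castRingHom ℝ) := by
      ext i j
      have h1 := congrFun (hc' j) i
      rw [Matrix.mul_apply]
      have h2 : ∑ p, (γ : Matrix (Fin n) (Fin n) ℝ) i p * V p j =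
          ((γ : Matrix (Fin n) (Fin n) ℝ) *ᵥ b (ι j)) i := rfl
      rw [h2, h1, Finset.sum_apply, Matrix.mul_apply]
      refine Finset.sum_congr rfl fun p _ => ?_
      rw [Pi.smul_apply, smul_eq_mul, mul_comm]
      rfl
    have hNM : P⁻¹ * ((γ : Matrix (Fin n) (Fin n) ℝ) * V) = N.map (Int.castRingHom ℝ) := by
      rw [hγV, ← Matrix.mul_assoc, Matrix.nonsing_inv_mul P hPu, Matrix.one_mul]
    have hdet : (((γ : Matrix (Fin n) (Fin n) ℝ) * V)ᵀ * ((P⁻¹)ᵀ * P⁻¹) *
        ((γ : Matrix (Fin n) (Fin n) ℝ) * V)).det = (((Nᵀ * N).det : ℤ) : ℝ) := by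
      have h1 : ((γ : Matrix (Fin n) (Fin n) ℝ) * V)ᵀ * ((P⁻¹)ᵀ * P⁻¹) *
        ((γ : Matrix (Fin n) (Fin n) ℝ) * V) = (P⁻¹ * ((γ : Matrix (Fin n) (Fin n) ℝ) * V))ᵀ *
          (P⁻¹ * ((γ : Matrix (Fin n) (Fin n) ℝ) * V)) := by
        rw [transpose_mul (P⁻¹) _]
        simp only [Matrix.mul_assoc]
      rw [h1, hNM]
      have h2 : (N.map (Int.castRingHom ℝ))ᵀ * (N.map (Int.castRingHom ℝ)) =
          (Nᵀ * N).map (Int.castRingHom ℝ) := by
        rw [Matrix.map_mul, transpose_map]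
      rw [h2, ← RingHom.mapMatrix_apply, ← RingHom.map_det]
      rfl
    have hne : (((Nᵀ * N).det : ℤ) : ℝ) ≠ 0 := by
      rw [← hdet]
      have h1 : ((γ : Matrix (Fin n) (Fin n) ℝ) * V)ᵀ * ((P⁻¹)ᵀ * P⁻¹) *
        ((γ : Matrix (Fin n) (Fin n) ℝ) * V) = (P⁻¹ * ((γ : Matrix (Fin n) (Fin n) ℝ) * V))ᵀ *
          (P⁻¹ * ((γ : Matrix (Fin n) (Fin n) ℝ) * V)) := by
        rw [transpose_mul (P⁻¹) _]
        simp only [Matrix.mul_assoc]
      rw [h1]
      apply gram_ne_zero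
      rw [Fintype.linearIndependent_iff]
      intro x hx
      have h2 : (P⁻¹ * ((γ : Matrix (Fin n) (Fin n) ℝ) * V)) *ᵥ x = 0 := by
        rw [← hx]
        ext i
        rw [Finset.sum_apply, mulVec, dotProduct]
        refine Finset.sum_congr rfl fun j _ => ?_
        rw [Pi.smul_apply, smul_eq_mul, transpose_apply, mul_comm]
      have h3 : V *ᵥ x = 0 := by
        have h4 := congrArg (fun y => (γ⁻¹ : SL n).1 *ᵥ (P *ᵥ y)) h2
        simp only [mulVec_mulVec, mulVec_zero] at h4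
        have h5 : (γ⁻¹ : SL n).1 * (P * (P⁻¹ * ((γ : Matrix (Fin n) (Fin n) ℝ) * V))) = V := by
          rw [← Matrix.mul_assoc P, Matrix.mul_nonsing_inv P hPu, Matrix.one_mul,
            ← Matrix.mul_assoc]
          have h6 : (γ⁻¹ : SL n).1 * (γ : Matrix (Fin n) (Fin n) ℝ) = 1 := by
            have h7 := congrArg (fun g : SL n => (g : Matrix (Fin n) (Fin n) ℝ))
              (inv_mul_cancel γ)
            exact h7
          rw [h6, Matrix.one_mul]
        rwa [h5] at h4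
      have h4 : ∑ j, x j • Vᵀ j = 0 := by
        rw [← h3]
        ext i
        rw [Finset.sum_apply, mulVec, dotProduct]
        refine Finset.sum_congr rfl fun j _ => ?_
        rw [Pi.smul_apply, smul_eq_mul, transpose_apply, mul_comm]
      exact Fintype.linearIndependent_iff.1 hVli x h4
    rw [hdet] at h
    have h1 : (1 : ℝ) ≤ |(((Nᵀ * N).det : ℤ) : ℝ)| := by
      have h2 : (Nᵀ * N).det ≠ 0 := by exact_mod_cast hne
      have h3 := Int.one_le_abs h2
      exact_mod_cast h3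
    linarith
  · intro S hS hSd hinv
    have hsymm : LinearMap.IsSymm (Matrix.toBilin' S) := by
      constructor
      intro x y
      show Matrix.toBilin' S x y = Matrix.toBilin' S y x
      rw [Matrix.toBilin'_apply', Matrix.toBilin'_apply', dotProduct_mulVec, ← mulVec_transpose, hS,
        dotProduct_comm]
    haveI : Invertible (2 : ℝ) := invertibleOfNonzero two_ne_zero
    obtain ⟨b', hb'⟩ := LinearMap.BilinForm.exists_orthogonal_basis hsymm
    have hfr : finrank ℝ (Fin n → ℝ) = n := finrank_fin_fun ℝ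
    set b : Basis (Fin n) ℝ (Fin n → ℝ) := b'.reindex (finCongr hfr) with hb
    have hb0 : ∀ i j, i ≠ j → b i ⬝ᵥ (S *ᵥ b j) = 0 := by
      intro i j hij
      have h1 := LinearMap.isOrthoᵢ_def.1 hb' ((finCongr hfr).symm i) ((finCongr hfr).symm j)
        (fun h => hij ((finCongr hfr).symm.injective h))
      rw [Matrix.toBilin'_apply'] at h1
      rw [hb, Basis.reindex_apply, Basis.reindex_apply]
      exact h1
    set P : Matrix (Fin n) (Fin n) ℝ := (Matrix.of b)ᵀ with hP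
    have hPu : IsUnit P.det := by
      have h := (Pi.basisFun ℝ (Fin n)).isUnit_det b
      have h1 : (Pi.basisFun ℝ (Fin n)).det b = P.det := by
        rw [Basis.det_apply]
        congr 1
      rwa [h1] at h
    have hent : ∀ i j, (Pᵀ * S * P) i j = b i ⬝ᵥ (S *ᵥ b j) := by
      intro i j
      rw [Matrix.mul_assoc, Matrix.mul_apply]
      refine Finset.sum_congr rfl fun p _ => ?_
      rw [Matrix.mul_apply]
      rfl
    have hdiag : ∀ i, b i ⬝ᵥ (S *ᵥ b i) ≠ 0 := by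
      have h1 : Pᵀ * S * P = diagonal (fun i => b i ⬝ᵥ (S *ᵥ b i)) := by
        ext i j
        rw [hent]
        by_cases hij : i = j
        · subst hij; rw [diagonal_apply_eq]
        · rw [diagonal_apply_ne _ hij, hb0 i j hij]
      have h2 := congrArg Matrix.det h1
      rw [det_mul, det_mul, det_transpose, det_diagonal] at h2
      have h3 : ∏ i, b i ⬝ᵥ (S *ᵥ b i) ≠ 0 := by
        rw [← h2]
        exact mul_ne_zero (mul_ne_zero hPu.ne_zero hSd) hPu.ne_zero
      intro i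
      exact Finset.prod_ne_zero_iff.1 h3 i (Finset.mem_univ i)
    set ι : Fin k → Fin n := Fin.castLE hkn.le with hι
    have hιi : Function.Injective ι := Fin.castLE_injective hkn.le
    set V : Matrix (Fin n) (Fin k) ℝ := (Matrix.of fun j => b (ι j))ᵀ with hV
    have hVli : LinearIndependent ℝ Vᵀ := b.linearIndependent.comp ι hιi
    have hVS : Vᵀ * S * V = diagonal (fun j => b (ι j) ⬝ᵥ (S *ᵥ b (ι j))) := by
      ext i j
      have h0 : (Vᵀ * S * V) i j = b (ι i) ⬝ᵥ (S *ᵥ b (ι j)) := by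
        rw [Matrix.mul_assoc, Matrix.mul_apply]
        refine Finset.sum_congr rfl fun p _ => ?_
        rw [Matrix.mul_apply]
        rfl
      rw [h0]
      by_cases hij : i = j
      · subst hij; rw [diagonal_apply_eq]
      · rw [diagonal_apply_ne _ hij, hb0 _ _ (fun h => hij (hιi h))]
    have hVd : (Vᵀ * S * V).det ≠ 0 := by
      rw [hVS, det_diagonal]
      exact Finset.prod_ne_zero_iff.2 fun j _ => hdiag (ι j)
    obtain ⟨γ, hγ, h⟩ := hsmall S V hVli |(Vᵀ * S * V).det| (abs_pos.2 hVd)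
    have h1 : ((γ : Matrix (Fin n) (Fin n) ℝ) * V)ᵀ * S * ((γ : Matrix (Fin n) (Fin n) ℝ) * V) =
        Vᵀ * S * V := by
      have h2 : ((γ : Matrix (Fin n) (Fin n) ℝ) * V)ᵀ * S * ((γ : Matrix (Fin n) (Fin n) ℝ) * V) =
        Vᵀ * ((γ : Matrix (Fin n) (Fin n) ℝ)ᵀ * S * (γ : Matrix (Fin n) (Fin n) ℝ)) * V := by
        rw [transpose_mul]
        simp only [Matrix.mul_assoc]
      rw [h2, hinv γ hγ]
    rw [h1] at h
    exact lt_irrefl _ h
  · intro v hv hinv
    set V : Matrix (Fin n) (Fin k) ℝ := (Matrix.of v)ᵀ with hV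
    have hVli : LinearIndependent ℝ Vᵀ := hv
    have hc0 : (Vᵀ * V).det ≠ 0 := gram_ne_zero V hVli
    obtain ⟨γ, hγ, h⟩ := hsmall 1 V hVli |(Vᵀ * V).det| (abs_pos.2 hc0)
    obtain ⟨R, hR, hRv⟩ := hinv γ hγ
    have hγV : (γ : Matrix (Fin n) (Fin n) ℝ) * V = V * R := by
      ext i j
      have h2 := congrFun (hRv j) i
      have h3 : ((γ : Matrix (Fin n) (Fin n) ℝ) * V) i j =
          ((γ : Matrix (Fin n) (Fin n) ℝ) *ᵥ v j) i := rfl
      rw [h3, h2, Finset.sum_apply, Matrix.mul_apply]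
      refine Finset.sum_congr rfl fun l _ => ?_
      rw [Pi.smul_apply, smul_eq_mul, mul_comm]
      rfl
    have h1 : ((γ : Matrix (Fin n) (Fin n) ℝ) * V)ᵀ * (1 : Matrix (Fin n) (Fin n) ℝ) *
        ((γ : Matrix (Fin n) (Fin n) ℝ) * V) = Rᵀ * (Vᵀ * V) * R := by
      rw [Matrix.mul_one, hγV, transpose_mul]
      simp only [Matrix.mul_assoc]
    rw [h1, det_mul, det_mul, det_transpose, abs_mul, abs_mul, hR, one_mul, mul_one] at h
    exact lt_irrefl _ h
  · intro hfix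
    have hmain : ∀ v : Fin k → (Fin n → ℝ), LinearIndependent ℝ v → ∀ ε : ℝ, 0 < ε →
        ∃ γ ∈ Γ, ∀ j, ‖(γ : Matrix (Fin n) (Fin n) ℝ) *ᵥ v j‖ < ε := by
      intro v hv ε hε
      set b : Basis (Fin k) ℝ W := finBasisOfFinrankEq ℝ W hWk
      obtain ⟨γ, hγ, x, hx⟩ := contract hk hkn ψ W b hW Γ hc v hv ε hε
      refine ⟨γ, hγ, fun j => ?_⟩
      rw [pi_norm_lt_iff hε]
      intro i
      have h1 : rep ψ W hW x = LinearMap.id := by
        ext1 w
        apply Subtype.ext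
        rw [rep_apply, hfix x w w.2]
        rfl
      have h2 := hx j i
      rw [h1, LinearMap.toMatrix_id] at h2
      have h3 : ∑ l, (1 : Matrix (Fin k) (Fin k) ℝ) l j • v l = v j := by
        rw [Finset.sum_eq_single j]
        · rw [Matrix.one_apply_eq, one_smul]
        · intro l _ hl
          rw [Matrix.one_apply_ne hl, zero_smul]
        · intro h; exact absurd (Finset.mem_univ j) h
      rw [h3] at h2
      exact h2
    refine ⟨hmain, ?_⟩
    rintro L hL ⟨v, hvL, hv⟩ hinv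
    obtain ⟨δ, hδ, hδ'⟩ : ∃ δ : ℝ, 0 < δ ∧ ∀ u ∈ L, ‖u‖ < δ → u = 0 := by
      have h1 : ({0} : Set L) ∈ nhds (0 : L) := by
        rw [nhds_discrete]; exact rfl
      obtain ⟨δ, hδ, h2⟩ := Metric.mem_nhds_iff.1 h1
      refine ⟨δ, hδ, fun u hu hn => ?_⟩
      have h3 : (⟨u, hu⟩ : L) ∈ Metric.ball (0 : L) δ := by
        rw [mem_ball_zero_iff]
        exact hn
      have h4 := h2 h3
      exact congrArg Subtype.val h4
    obtain ⟨γ, hγ, h⟩ := hmain v hv δ hδ
    have h1 := hδ' _ (hinv γ hγ v hvL) ((pi_norm_lt_iff hδ).2 h)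
    have h2 : v ⟨0, hk⟩ = 0 := by
      have h3 := congrFun h1 ⟨0, hk⟩
      have h4 := congrArg (fun y => (γ⁻¹ : SL n).1 *ᵥ y) h3
      simp only [mulVec_mulVec, Pi.zero_apply, mulVec_zero] at h4
      have h6 : (γ⁻¹ : SL n).1 * (γ : Matrix (Fin n) (Fin n) ℝ) = 1 :=
        congrArg (fun g : SL n => (g : Matrix (Fin n) (Fin n) ℝ)) (inv_mul_cancel γ)
      rw [h6, one_mulVec] at h4
      exact h4
    exact hv.ne_zero ⟨0, hk⟩ h2

end Pool.Agent.H21.CQ
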