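import Mathlib

/-!
# Positive characters of `SL(m, ℝ)` are trivial (MP_4fe60b_al)
-/

set_option autoImplicit false

open Matrix

namespace Pool.Agent.H21.CQ

variable {m : ℕ}

/-- the element of `SL(m, ℝ)` with a given matrix of determinant one -/
def sl (A : Matrix (Fin m) (Fin m) ℝ) (h : A.det = 1) : SpecialLinearGroup (Fin m) ℝ := ⟨A, h⟩

@[simp] lemma sl_val (A : Matrix (Fin m) (Fin m) ℝ) (h : A.det = 1) :
    ((sl A h : SpecialLinearGroup (Fin m) ℝ) : Matrix (Fin m) (Fin m) ℝ) = A := rfl

private lemma pos_one {x : ℝ} (hx : 0 < x) {r : ℕ} (hr : r ≠ 0) (h : x ^ r = 1) : x = 1 :=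
  (pow_eq_one_iff_of_nonneg hx.le hr).1 h

/-- transvections -/
private lemma chi_transvection (χ : SpecialLinearGroup (Fin m) ℝ →* ℝ) (hχ : ∀ x, 0 < χ x)
    (i j : Fin m) (hij : i ≠ j) (c : ℝ) (h : (transvection i j c).det = 1) :
    χ (sl (transvection i j c) h) = 1 := by
  set d : Fin m → ℝ := fun p => if p = i then 2 else if p = j then 1 / 2 else 1 with hd
  have hdet : (diagonal d).det = 1 := by
    rw [det_diagonal, hd]
    rw [← Finset.mul_prod_erase Finset.univ _ (Finset.mem_univ i),
      ← Finset.mul_prod_erase (Finset.univ.erase i) _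
        (Finset.mem_erase.2 ⟨hij.symm, Finset.mem_univ j⟩)]
    rw [Finset.prod_eq_one]
    · simp [hij.symm]
    · intro p hp
      simp only [Finset.mem_erase, Finset.mem_univ, and_true] at hp
      simp [hp.1, hp.2]
  have h44 : (transvection i j (4 * c)).det = 1 := det_transvection_of_ne i j hij _
  have hpow : (sl (transvection i j c) h) ^ 4 = sl (transvection i j (4 * c)) h44 := by
    apply Subtype.ext
    rw [show (4 : ℕ) = 1 + 1 + 1 + 1 from rfl, pow_add, pow_add, pow_add, pow_one]
    show transvection i j c * transvection i j c * transvection i j c * transvection i j c =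
      transvection i j (4 * c)
    rw [transvection_mul_transvection_same i j hij, transvection_mul_transvection_same i j hij,
      transvection_mul_transvection_same i j hij]
    congr 1
    ring
  have hrel : sl (diagonal d) hdet * sl (transvection i j c) h =
      sl (transvection i j (4 * c)) h44 * sl (diagonal d) hdet := by
    apply Subtype.ext
    show diagonal d * transvection i j c = transvection i j (4 * c) * diagonal d
    rw [transvection, transvection, mul_add, add_mul, mul_one, one_mul]
    congr 1
    ext p q
    rw [diagonal_mul, mul_diagonal]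
    by_cases hp : p = i
    · by_cases hq : q = j
      · subst hp; subst hq
        simp [hd, hij.symm]
        ring
      · rw [Matrix.single_apply_of_ne, Matrix.single_apply_of_ne]
        · simp
        · rintro ⟨_, h2⟩; exact hq h2.symm
        · rintro ⟨_, h2⟩; exact hq h2.symm
    · rw [Matrix.single_apply_of_ne, Matrix.single_apply_of_ne]
      · simp
      · rintro ⟨h2, _⟩; exact hp h2.symm
      · rintro ⟨h2, _⟩; exact hp h2.symm
  have h1 := congrArg χ hrel
  rw [← hpow, map_mul, map_mul, map_pow, mul_comm] at h1
  have h2 : χ (sl (transvection i j c) h) = χ (sl (transvection i j c) h) ^ 4 :=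
    mul_right_cancel₀ (hχ _).ne' h1
  have h3 : χ (sl (transvection i j c) h) ^ 3 = 1 := by
    have : χ (sl (transvection i j c) h) * χ (sl (transvection i j c) h) ^ 3 =
        χ (sl (transvection i j c) h) * 1 := by
      rw [mul_one]
      calc _ = χ (sl (transvection i j c) h) ^ 4 := by ring
        _ = _ := h2.symm
    exact mul_left_cancel₀ (hχ _).ne' this
  exact pos_one (hχ _) (by norm_num) h3

/-- the conjugation by a signed permutation -/
private lemma chi_perm (χ : SpecialLinearGroup (Fin m) ℝ →* ℝ) (hχ : ∀ x, 0 < χ x)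
    (d : Fin m → ℝ) (h : (diagonal d).det = 1) (σ : Equiv.Perm (Fin m))
    (h' : (diagonal (d ∘ σ)).det = 1) (i₀ : Fin m) :
    χ (sl (diagonal (d ∘ σ)) h') = χ (sl (diagonal d) h) := by
  set s : Fin m → ℝ := fun p => if p = i₀ then ((Equiv.Perm.sign σ : ℤ) : ℝ) else 1 with hs
  have hsdet : (diagonal s).det = ((Equiv.Perm.sign σ : ℤ) : ℝ) := by
    rw [det_diagonal, hs, Finset.prod_ite_eq' Finset.univ i₀]
    simp
  have hwdet : (diagonal s * σ.permMatrix ℝ).det = 1 := by
    rw [det_mul, hsdet, det_permutation]
    rcases Int.units_eq_one_or (Equiv.Perm.sign σ) with h1 | h1 <;> rw [h1] <;> norm_num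
  have hrel : sl (diagonal (d ∘ σ)) h' * sl (diagonal s * σ.permMatrix ℝ) hwdet =
      sl (diagonal s * σ.permMatrix ℝ) hwdet * sl (diagonal d) h := by
    apply Subtype.ext
    show diagonal (d ∘ σ) * (diagonal s * σ.permMatrix ℝ) =
      diagonal s * σ.permMatrix ℝ * diagonal d
    have h1 : σ.permMatrix ℝ * diagonal d = diagonal (d ∘ σ) * σ.permMatrix ℝ := by
      ext p q
      rw [mul_diagonal, diagonal_mul]
      simp only [Equiv.Perm.permMatrix, PEquiv.toMatrix_apply, Equiv.toPEquiv_apply,
        Option.mem_def, Option.some.injEq, Function.comp_apply]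
      split_ifs with h2
      · rw [h2]; ring
      · ring
    rw [Matrix.mul_assoc, h1, ← Matrix.mul_assoc, ← Matrix.mul_assoc, diagonal_mul_diagonal,
      diagonal_mul_diagonal]
    congr 2
    ext p
    ring
  have h1 := congrArg χ hrel
  rw [map_mul, map_mul, mul_comm] at h1
  exact mul_left_cancel₀ (hχ _).ne' h1

private lemma chi_diag (χ : SpecialLinearGroup (Fin m) ℝ →* ℝ) (hχ : ∀ x, 0 < χ x)
    (d : Fin m → ℝ) (h : (diagonal d).det = 1) : χ (sl (diagonal d) h) = 1 := by
  rcases Nat.eq_zero_or_pos m with hm | hm
  · subst hm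
    have : sl (diagonal d) h = 1 := by
      apply Subtype.ext
      ext i
      exact i.elim0
    rw [this, map_one]
  · haveI : NeZero m := ⟨hm.ne'⟩
    have hprod : ∏ i, d i = 1 := by rw [← det_diagonal]; exact h
    have hsh : ∀ r : Fin m, (diagonal (d ∘ (Equiv.addRight r))).det = 1 := by
      intro r
      rw [det_diagonal, ← hprod]
      exact Equiv.prod_comp (Equiv.addRight r) d
    have key : ∀ S : Finset (Fin m), ∃ hS : (diagonal (fun i => ∏ r ∈ S, d (i + r))).det = 1,
        χ (sl (diagonal (fun i => ∏ r ∈ S, d (i + r))) hS) = χ (sl (diagonal d) h) ^ S.card := by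
      intro S
      induction S using Finset.induction_on with
      | empty =>
        have h0 : (diagonal (fun i => ∏ r ∈ (∅ : Finset (Fin m)), d (i + r))).det = 1 := by simp
        refine ⟨h0, ?_⟩
        have h1 : sl (diagonal (fun i => ∏ r ∈ (∅ : Finset (Fin m)), d (i + r))) h0 = 1 := by
          apply Subtype.ext
          show diagonal (fun i => ∏ r ∈ (∅ : Finset (Fin m)), d (i + r)) = 1
          simp
        rw [h1, map_one]
        simp
      | insert a S ha ih =>
        obtain ⟨hS, hc⟩ := ih
        have e1 : diagonal (fun i => ∏ r ∈ insert a S, d (i + r)) =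
            diagonal (d ∘ (Equiv.addRight a)) * diagonal (fun i => ∏ r ∈ S, d (i + r)) := by
          rw [diagonal_mul_diagonal]
          congr 1
          ext i
          rw [Finset.prod_insert ha]
          rfl
        have hdet : (diagonal (fun i => ∏ r ∈ insert a S, d (i + r))).det = 1 := by
          rw [e1, det_mul, hsh a, hS, one_mul]
        refine ⟨hdet, ?_⟩
        have e2 : sl (diagonal (fun i => ∏ r ∈ insert a S, d (i + r))) hdet =
            sl (diagonal (d ∘ (Equiv.addRight a))) (hsh a) *
              sl (diagonal (fun i => ∏ r ∈ S, d (i + r))) hS := by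
          apply Subtype.ext
          exact e1
        rw [e2, map_mul, hc, chi_perm χ hχ d h (Equiv.addRight a) (hsh a) 0,
          Finset.card_insert_of_notMem ha, pow_succ, mul_comm]
    obtain ⟨hU, hc⟩ := key Finset.univ
    have e1 : sl (diagonal (fun i => ∏ r, d (i + r))) hU = 1 := by
      apply Subtype.ext
      show diagonal (fun i => ∏ r, d (i + r)) = 1
      rw [← diagonal_one]
      congr 1
      ext i
      rw [← hprod]
      exact Equiv.prod_comp (Equiv.addLeft i) d
    rw [e1, map_one] at hc
    exact pos_one (hχ _) (by simp [hm.ne']) hc.symm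

/-- Every positive character of `SL(m, ℝ)` is trivial. -/
theorem chi_eq_one (χ : SpecialLinearGroup (Fin m) ℝ →* ℝ) (hχ : ∀ x, 0 < χ x)
    (x : SpecialLinearGroup (Fin m) ℝ) : χ x = 1 := by
  obtain ⟨L, L', D, hM⟩ := Pivot.exists_list_transvec_mul_diagonal_mul_list_transvec
    (x : Matrix (Fin m) (Fin m) ℝ)
  have hlist : ∀ L : List (TransvectionStruct (Fin m) ℝ),
      ∃ h : ((L.map TransvectionStruct.toMatrix).prod).det = 1,
        χ (sl (L.map TransvectionStruct.toMatrix).prod h) = 1 := by
    intro L
    induction L with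
    | nil =>
      have h0 : ((([] : List (TransvectionStruct (Fin m) ℝ)).map
        TransvectionStruct.toMatrix).prod).det = 1 := by simp
      refine ⟨h0, ?_⟩
      have h1 : sl (([] : List (TransvectionStruct (Fin m) ℝ)).map
          TransvectionStruct.toMatrix).prod h0 = 1 := by
        apply Subtype.ext
        show (([] : List (TransvectionStruct (Fin m) ℝ)).map
          TransvectionStruct.toMatrix).prod = 1
        simp
      rw [h1, map_one]
    | cons t L ih =>
      obtain ⟨h, hc⟩ := ih
      have ht : t.toMatrix.det = 1 := t.det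
      have hd : (((t :: L).map TransvectionStruct.toMatrix).prod).det = 1 := by
        rw [List.map_cons, List.prod_cons, det_mul, ht, h, one_mul]
      refine ⟨hd, ?_⟩
      have e : sl ((t :: L).map TransvectionStruct.toMatrix).prod hd =
          sl t.toMatrix ht * sl (L.map TransvectionStruct.toMatrix).prod h := by
        apply Subtype.ext
        show ((t :: L).map TransvectionStruct.toMatrix).prod =
          t.toMatrix * (L.map TransvectionStruct.toMatrix).prod
        rw [List.map_cons, List.prod_cons]
      rw [e, map_mul, hc, mul_one]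
      obtain ⟨i, j, hij, c⟩ := t
      exact chi_transvection χ hχ i j hij c ht
  obtain ⟨h1, hc1⟩ := hlist L
  obtain ⟨h2, hc2⟩ := hlist L'
  have hD : (diagonal D).det = 1 := by
    have h3 := congrArg Matrix.det hM
    rw [det_mul, det_mul, h1, h2, one_mul, mul_one] at h3
    rw [← h3]
    exact x.2
  have e : x = sl (L.map TransvectionStruct.toMatrix).prod h1 * sl (diagonal D) hD *
      sl (L'.map TransvectionStruct.toMatrix).prod h2 := by
    apply Subtype.ext
    exact hM
  rw [e, map_mul, map_mul, hc1, hc2, chi_diag χ hχ D hD, one_mul, mul_one]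

end Pool.Agent.H21.CQ
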